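import Pool.Agent.Helper41.SQ.GoalsN

/-!
Project SQ (MP_bb32d1_al), stage B, packet SQN-CT.
-/

set_option autoImplicit false
set_option linter.unusedSectionVars false

namespace Pool.Agent.Helper87.SQN

noncomputable section

open Matrix Pool.Agent.Helper19.SQ Pool.Agent.Helper34.SQ Pool.Agent.Helper41.SQ

variable {A : Type} [Ring A] [Algebra ℂ A] {ι : Type} [Fintype ι] [DecidableEq ι]

/-- the column `w` is killed by `σ T` (with all elements of `A` on the right). -/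
def Kil (T : Matrix (ι × ι) (ι × ι) A) (σ : ι × ι → (A →ₗ[ℂ] ℂ)) (w : ι × ι → A) : Prop :=
  ∀ a, ∑ x, σ x ((T *ᵥ w) x * a) = 0

theorem kil_act (T : Matrix (ι × ι) (ι × ι) A) (σ : ι × ι → (A →ₗ[ℂ] ℂ)) (w : ι × ι → A) (a : A) :
    ∑ x, act σ T x (w x * a) = ∑ x, σ x ((T *ᵥ w) x * a) := by
  simp only [act_apply]
  rw [Finset.sum_comm]
  refine Finset.sum_congr rfl fun x _ => ?_
  rw [← map_sum]
  congr 1
  rw [Matrix.mulVec, dotProduct, Finset.sum_mul]
  exact Finset.sum_congr rfl fun y _ => (mul_assoc _ _ _).symm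

theorem kil_add {T : Matrix (ι × ι) (ι × ι) A} {σ : ι × ι → (A →ₗ[ℂ] ℂ)} {w w' : ι × ι → A}
    (h : Kil T σ w) (h' : Kil T σ w') : Kil T σ (w + w') := by
  intro a
  have e : ∀ x, σ x ((T *ᵥ (w + w')) x * a) = σ x ((T *ᵥ w) x * a) + σ x ((T *ᵥ w') x * a) := by
    intro x
    rw [Matrix.mulVec_add, Pi.add_apply, add_mul, map_add]
  simp only [e, Finset.sum_add_distrib]
  rw [h a, h' a, add_zero]

theorem mulVec_right (M : Matrix (ι × ι) (ι × ι) A) (w : ι × ι → A) (b : A) :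
    (M *ᵥ fun x => w x * b) = fun x => (M *ᵥ w) x * b := by
  funext x
  rw [Matrix.mulVec, dotProduct, Matrix.mulVec, dotProduct, Finset.sum_mul]
  exact Finset.sum_congr rfl fun y _ => (mul_assoc _ _ _).symm

theorem kil_right {T : Matrix (ι × ι) (ι × ι) A} {σ : ι × ι → (A →ₗ[ℂ] ℂ)} {w : ι × ι → A}
    (h : Kil T σ w) (b : A) : Kil T σ (fun x => w x * b) := by
  intro a
  rw [mulVec_right]
  have := h (b * a)
  simpa only [mul_assoc] using this

theorem X1_pow (X : Matrix ι ι A) (r : ℕ) : X1 X ^ r = X1 (X ^ r) := by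
  rw [← bd_eq, ← bd_eq, map_pow]

theorem T_pow (S T Y : Matrix (ι × ι) (ι × ι) A) (h : T * S = 1) :
    ∀ r : ℕ, T * (S * Y * T) ^ r = Y ^ r * T
  | 0 => by rw [pow_zero, pow_zero, mul_one, one_mul]
  | r + 1 => by
    rw [pow_succ, ← mul_assoc, T_pow S T Y h r, pow_succ]
    calc Y ^ r * T * (S * Y * T) = Y ^ r * (T * S) * Y * T := by noncomm_ring
      _ = Y ^ r * Y * T := by rw [h, mul_one]

theorem n_ct : S_CT := by
  intro A _ _ ι _ _ C P σ hσ
  have hTS : sc A C.T * sc A C.S = 1 := by rw [sc_mul, C.TS, sc_one]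
  -- the columns `X1'^r u`
  have base : ∀ r : ℕ, Kil (sc A C.T) σ
      ((sc A C.S * X1 C.X * sc A C.T) ^ r *ᵥ C.u) := by
    intro r a
    have e : ∀ x : ι × ι, (sc A C.T *ᵥ ((sc A C.S * X1 C.X * sc A C.T) ^ r *ᵥ C.u)) x =
        P.κ2 • (C.X ^ r) x.2 x.1 := by
      intro x
      rw [Matrix.mulVec_mulVec, T_pow _ _ _ hTS, ← Matrix.mulVec_mulVec, X1_pow, Matrix.mulVec,
        dotProduct, Fintype.sum_prod_type, Finset.sum_eq_single x.1,
        Finset.sum_eq_single x.1]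
      · rw [P.Tu]
        simp [X1]
      · intro k _ hk
        rw [P.Tu]
        simp [Ne.symm hk]
      · intro h; exact absurd (Finset.mem_univ _) h
      · intro k _ hk
        refine Finset.sum_eq_zero fun z _ => ?_
        simp [X1, Ne.symm hk]
      · intro h; exact absurd (Finset.mem_univ _) h
    have e2 : ∀ x : ι × ι, σ x (P.κ2 • (C.X ^ r) x.2 x.1 * a) =
        P.κ2 * σ x ((C.X ^ r) x.2 x.1 * a) := by
      intro x
      rw [smul_mul_assoc, map_smul, smul_eq_mul]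
    simp only [e, e2]
    rw [← Finset.mul_sum, Fintype.sum_prod_type]
    have := hσ r a
    simp only at this ⊢
    rw [this, mul_zero]
  have e0 : ∀ w : ι × ι → A, X2 C.ε C.X *ᵥ w = (sc A C.S * X1 C.X * sc A C.T) *ᵥ w +
      fun x => C.u x * (C.v ⬝ᵥ w) := by
    intro w
    rw [C.X2eq, Matrix.add_mulVec]
    congr 1
    funext x
    change ∑ y, Matrix.vecMulVec C.u C.v x y * w y = C.u x * ∑ y, C.v y * w y
    rw [Finset.mul_sum]
    exact Finset.sum_congr rfl fun y _ => by rw [Matrix.vecMulVec_apply, mul_assoc]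
  -- the columns `X1'^r X2^i u`
  have key : ∀ i r : ℕ, Kil (sc A C.T) σ
      ((sc A C.S * X1 C.X * sc A C.T) ^ r *ᵥ (X2 C.ε C.X ^ i *ᵥ C.u)) := by
    intro i
    induction i with
    | zero =>
      intro r
      rw [pow_zero, Matrix.one_mulVec]
      exact base r
    | succ i ih =>
      intro r
      have e : (sc A C.S * X1 C.X * sc A C.T) ^ r *ᵥ (X2 C.ε C.X ^ (i + 1) *ᵥ C.u) =
          (sc A C.S * X1 C.X * sc A C.T) ^ (r + 1) *ᵥ (X2 C.ε C.X ^ i *ᵥ C.u) +
            fun x => ((sc A C.S * X1 C.X * sc A C.T) ^ r *ᵥ C.u) x *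
              (C.v ⬝ᵥ (X2 C.ε C.X ^ i *ᵥ C.u)) := by
        have e1 : X2 C.ε C.X ^ (i + 1) *ᵥ C.u =
            (sc A C.S * X1 C.X * sc A C.T) *ᵥ (X2 C.ε C.X ^ i *ᵥ C.u) +
              fun x => C.u x * (C.v ⬝ᵥ (X2 C.ε C.X ^ i *ᵥ C.u)) := by
          rw [pow_succ', ← Matrix.mulVec_mulVec]
          exact e0 _
        rw [e1, Matrix.mulVec_add, Matrix.mulVec_mulVec, ← pow_succ, mulVec_right]
      rw [e]
      exact kil_add (ih (r + 1)) (kil_right (base r) _)
  intro i a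
  rw [kil_act]
  have := key i 0 a
  rwa [pow_zero, Matrix.one_mulVec] at this

end

end Pool.Agent.Helper87.SQN
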