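import Pool.Agent.Helper4.SQ.GoalsR

/-!
Project SQ, packet SCQ: identities between matrices of numbers, and XINV.
-/

set_option autoImplicit false
set_option linter.unusedSectionVars false

namespace Pool.Agent.Helper87.SQ

noncomputable section

open Matrix Pool.Agent.Helper19.SQ Pool.Agent.Helper34.SQ Pool.Agent.Helper41.SQ
open Pool.Agent.Helper4.SQ

theorem scm_mulVec (N : ℕ) (q : ℂ) (f : Fin (N + 1) × Fin (N + 1) → ℂ) (i j : Fin (N + 1)) :
    (Scm N q *ᵥ f) (i, j) = (if i = j then q else 1) * f (j, i)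
      + (if i < j then (q - q⁻¹) * f (i, j) else 0) := by
  simp only [Matrix.mulVec, dotProduct, Scm, Matrix.of_apply, add_mul, Finset.sum_add_distrib]
  congr 1
  · rw [Finset.sum_eq_single (j, i)]
    · simp [eq_comm]
    · rintro ⟨a, b⟩ _ hab
      rw [if_neg, zero_mul]
      rintro ⟨h1, h2⟩
      exact hab (by ext <;> simp_all)
    · simp
  · rw [Finset.sum_eq_single (i, j)]
    · simp
    · rintro ⟨a, b⟩ _ hab
      rw [if_neg, zero_mul]
      rintro ⟨h1, h2⟩
      exact hab h1.symm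
    · simp

theorem scq1 (N : ℕ) (q : ℂ) (hq : q ≠ 0) :
    Scm N q * Scm N q = 1 + (q - q⁻¹) • Scm N q := by
  have hinj : Function.Injective
      (Matrix.mulVec : Matrix (Fin (N + 1) × Fin (N + 1)) (Fin (N + 1) × Fin (N + 1)) ℂ →
        (Fin (N + 1) × Fin (N + 1) → ℂ) → (Fin (N + 1) × Fin (N + 1) → ℂ)) :=
    Matrix.mulVec_injective
  apply hinj
  funext f x
  obtain ⟨i, j⟩ := x
  rw [← Matrix.mulVec_mulVec, Matrix.add_mulVec, Matrix.one_mulVec, Matrix.smul_mulVec,
    Pi.add_apply, Pi.smul_apply, scm_mulVec, scm_mulVec, scm_mulVec, smul_eq_mul]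
  rcases lt_trichotomy i j with h | h | h
  · simp only [if_neg h.ne, if_neg h.ne', if_pos h, if_neg h.not_gt]
    ring
  · subst h
    simp only [if_true, lt_irrefl, if_false]
    have h2 : q * q = 1 + (q - q⁻¹) * q := by field_simp; ring
    calc q * (q * f (i, i) + 0) + 0 = (q * q) * f (i, i) := by ring
      _ = _ := by rw [h2]; ring
  · simp only [if_neg h.ne, if_neg h.ne', if_pos h, if_neg h.not_gt]
    ring

theorem scq2 (N : ℕ) (q : ℂ) (hq : q ≠ 0) (a b c d : Fin (N + 1)) :
    Tmat N q (b, d) (a, c)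
    = (Scm N q - (q - q⁻¹) • (1 : Matrix (Fin (N + 1) × Fin (N + 1))
        (Fin (N + 1) × Fin (N + 1)) ℂ)) (d, c) (b, a) := by
  simp only [Tmat, Scm, Matrix.of_apply, Matrix.sub_apply, Matrix.smul_apply, Matrix.one_apply,
    Prod.mk.injEq, smul_eq_mul]
  by_cases hac : a = c
  · subst hac
    by_cases hbd : b = d
    · subst hbd
      rcases lt_trichotomy a b with h | h | h
      · simp [h.ne, h.ne', h, h.not_gt]
      · subst h
        simp
      · simp [h.ne, h.ne', h, h.not_gt]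
    · by_cases hba : b = a
      · subst hba
        simp [hbd, Ne.symm hbd]
      · simp [hbd, Ne.symm hbd]
        intro h1 h2
        exact absurd (h1.trans h2) (by intro h; exact hbd (by simp_all))
  · rw [if_neg hac]
    by_cases h1 : b = c ∧ d = a
    · obtain ⟨rfl, rfl⟩ := h1
      simp [hac, Ne.symm hac]
    · rw [if_neg h1, if_neg (fun h => h1 ⟨h.2.symm, h.1⟩), if_neg (fun h => hac h.1.2.symm),
        if_neg (fun h => hac h.2.symm)]
      simp

theorem scq3 (N : ℕ) (q : ℂ) (hq : q ≠ 0) (a x k y : Fin (N + 1)) :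
    q⁻¹ ^ (2 * (y : ℕ)) * Smat N q (x, y) (a, k)
    = q⁻¹ ^ (2 * (a : ℕ)) * Scm N q (a, x) (k, y) := by
  simp only [Smat, Scm, Matrix.of_apply, Prod.mk.injEq]
  by_cases hak : a = k
  · subst hak
    by_cases hxy : x = y
    · subst hxy
      rcases lt_trichotomy a x with h | h | h
      · have hxa : ¬ (x = a) := h.ne'
        have hax : ¬ (a = x) := h.ne
        simp only [if_true, if_neg hxa, if_pos h, if_neg hax, and_self, zero_add, true_and,
          false_and, if_false]
        have hle : (a : ℕ) ≤ (x : ℕ) := Fin.le_def.1 h.le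
        have h2 : q⁻¹ ^ (2 * (x : ℕ)) * q ^ (2 * ((x : ℕ) - (a : ℕ))) = q⁻¹ ^ (2 * (a : ℕ)) := by
          have h3 : 2 * (x : ℕ) = 2 * (a : ℕ) + 2 * ((x : ℕ) - (a : ℕ)) := by omega
          rw [h3, pow_add]
          rw [mul_assoc, ← mul_pow, inv_mul_cancel₀ hq, one_pow, mul_one]
        rw [mul_left_comm, h2]
        have hf : ¬ (a = x ∧ x = a) := fun hh => hax hh.1
        rw [if_neg hf]
        ring
      · subst h
        simp
      · simp [h.ne, h.ne', h, h.not_gt]
    · by_cases hxa : x = a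
      · subst hxa
        simp [hxy]
      · simp [hxy, hxa]
  · by_cases h1 : x = k ∧ y = a
    · obtain ⟨rfl, rfl⟩ := h1
      simp [hak, Ne.symm hak]
    · rw [if_neg hak, if_neg h1, if_neg (fun h => h1 ⟨h.2, h.1.symm⟩), if_neg (fun h => hak h.1.1)]
      simp

theorem geo (q : ℂ) (hq : q ≠ 0) (i : ℕ) :
    (q - q⁻¹) * ∑ p ∈ Finset.range i, q ^ (2 * p) = q⁻¹ * q ^ (2 * i) - q⁻¹ := by
  induction i with
  | zero => simp
  | succ i ih =>
    rw [Finset.sum_range_succ, mul_add, ih]
    have h : 2 * (i + 1) = 2 * i + 1 + 1 := by ring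
    rw [h, pow_succ, pow_succ]
    field_simp
    ring

theorem scq5 (N l : ℕ) (q : ℂ) (hq : q ≠ 0) (x : Fin (N + 1) × Fin (N + 1)) :
    (sc (A N l q) (Tmat N q) *ᵥ uvec N l q) x
      = if x.1 = x.2 then (-(q - q⁻¹) * q⁻¹) • (1 : A N l q) else 0 := by
  obtain ⟨i, k⟩ := x
  have h1 : (sc (A N l q) (Tmat N q) *ᵥ uvec N l q) (i, k)
      = (∑ p : Fin (N + 1), Tmat N q (i, k) (p, p) * (-(q - q⁻¹) * q ^ (2 * (p : ℕ)))) •
        (1 : A N l q) := by
    simp only [Matrix.mulVec, dotProduct, Fintype.sum_prod_type, uvec, mul_ite, mul_zero,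
      Finset.sum_ite_eq, Finset.mem_univ, if_true, Finset.sum_smul]
    apply Finset.sum_congr rfl
    intro p _
    simp [sc, Algebra.smul_def, map_mul, mul_assoc]
  rw [h1]
  simp only [Tmat, Matrix.of_apply, if_true]
  by_cases hik : i = k
  · subst hik
    simp only [if_true]
    congr 1
    have h2 : ∀ p : Fin (N + 1), (if i = p then q⁻¹ else if p < i then -(q - q⁻¹) else 0)
        * (-(q - q⁻¹) * q ^ (2 * (p : ℕ)))
        = (if i = p then q⁻¹ * (-(q - q⁻¹) * q ^ (2 * (i : ℕ))) else 0)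
          + (if (p : ℕ) < (i : ℕ) then (q - q⁻¹) * ((q - q⁻¹) * q ^ (2 * (p : ℕ))) else 0) := by
      intro p
      by_cases hp : i = p
      · subst hp
        simp
      · rw [if_neg hp, if_neg hp]
        by_cases hlt : p < i
        · rw [if_pos hlt, if_pos (Fin.lt_def.1 hlt)]
          ring
        · rw [if_neg hlt, if_neg (fun h => hlt (Fin.lt_def.2 h))]
          ring
    rw [Finset.sum_congr rfl fun p _ => h2 p, Finset.sum_add_distrib, Finset.sum_ite_eq,
      if_pos (Finset.mem_univ _)]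
    rw [Fin.sum_univ_eq_sum_range (fun p => if p < (i : ℕ) then
      (q - q⁻¹) * ((q - q⁻¹) * q ^ (2 * p)) else 0) (N + 1)]
    rw [← Finset.sum_filter]
    have h3 : (Finset.range (N + 1)).filter (fun p => p < (i : ℕ)) = Finset.range (i : ℕ) := by
      ext p
      simp only [Finset.mem_filter, Finset.mem_range]
      have := i.isLt
      omega
    rw [h3, ← Finset.mul_sum, ← Finset.mul_sum, geo q hq]
    ring
  · simp [hik]

theorem sSCQ : S_SCQ := by
  intro N q hq
  refine ⟨scq1 N q hq, scq2 N q hq, scq3 N q hq, ?_, fun l x => scq5 N l q hq x⟩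
  intro l x
  simp only [uvec, inv_pow, inv_inv]

theorem sXINV : S_XINV := by
  intro B _ _ l K X hl hX
  refine ⟨1 - (1 - Polynomial.X ^ l) ^ K, ?_, ?_⟩
  · rw [Polynomial.coeff_zero_eq_eval_zero]
    simp [show l ≠ 0 by omega]
  · have h1 : (1 - X ^ l) ^ K = 0 := by
      rw [← neg_sub, neg_pow, hX, mul_zero]
    simp [h1]

end

end Pool.Agent.Helper87.SQ
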